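import Pool.Agent.Q229.PS.Stm

set_option autoImplicit false
set_option linter.unusedSectionVars false

/-! # The path-stabbing number: job N4 -/

namespace Pool.Agent.Q66.PS

open Pool.Agent.Q229.PS

section abs

variable {α : Type} {U : α → Prop}

/-- one of the two points satisfies `U` and the other one does not -/
def Chg (U : α → Prop) (a b : α) : Prop := (U a ∧ ¬ U b) ∨ (U b ∧ ¬ U a)

theorem chg_zero (b : α) (l : List α) (h : adjC (Chg U) (b :: l) = 0) :
    ∀ x ∈ b :: l, (U x ↔ U b) := by
  classical
  induction l generalizing b with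
  | nil =>
    intro x hx
    rw [List.mem_singleton] at hx
    rw [hx]
  | cons c l ih =>
    rw [adjC_cons_cons] at h
    have h1 : ¬ Chg U b c := by
      intro h2
      rw [if_pos h2] at h
      omega
    have h2 : adjC (Chg U) (c :: l) = 0 := by omega
    have h3 : U c ↔ U b := by
      unfold Chg at h1
      tauto
    intro x hx
    rcases List.mem_cons.1 hx with rfl | hx
    · rfl
    · rw [ih c h2 x hx, h3]

/-- a list with at most one change which starts with `U` -/
theorem chg_split (l : List α) (a : α) (ha : U a) (h : adjC (Chg U) (a :: l) ≤ 1) :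
    ∃ A B, a :: l = A ++ B ∧ (∀ x ∈ A, U x) ∧ ∀ x ∈ B, ¬ U x := by
  classical
  induction l generalizing a with
  | nil => exact ⟨[a], [], rfl, by simpa using ha, by simp⟩
  | cons c l ih =>
    rw [adjC_cons_cons] at h
    by_cases hc : U c
    · obtain ⟨A, B, h1, h2, h3⟩ := ih c hc (by omega)
      refine ⟨a :: A, B, by rw [h1]; rfl, ?_, h3⟩
      intro x hx
      rcases List.mem_cons.1 hx with rfl | hx
      · exact ha
      · exact h2 x hx
    · have h1 : Chg U a c := Or.inl ⟨ha, hc⟩
      rw [if_pos h1] at h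
      have h2 := chg_zero (U := U) c l (by omega)
      refine ⟨[a], c :: l, rfl, by simpa using ha, fun x hx => ?_⟩
      rw [h2 x hx]
      exact hc

theorem chg_comm (a b : α) : Chg U a b ↔ Chg U b a := by
  unfold Chg
  tauto

theorem chg_not (a b : α) : Chg U a b ↔ Chg (fun x => ¬ U x) a b := by
  unfold Chg
  tauto

/-- a list with at most one change and an element with `U` starts or ends with `U` -/
theorem chg_end (P : List α) (h : adjC (Chg U) P ≤ 1) (hU : ∃ a ∈ P, U a) :
    ∃ P', (P' = P ∨ P' = P.reverse) ∧ ∃ a l, P' = a :: l ∧ U a := by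
  classical
  cases P with
  | nil =>
    obtain ⟨a, ha, _⟩ := hU
    simp at ha
  | cons a l =>
    by_cases ha : U a
    · exact ⟨_, Or.inl rfl, a, l, rfl, ha⟩
    · have h' : adjC (Chg (fun x => ¬ U x)) (a :: l) ≤ 1 := by
        rw [← adjC_congr (a :: l) (fun a _ b _ => chg_not a b)]
        exact h
      obtain ⟨A, B, h1, h2, h3⟩ := chg_split l a ha h'
      have hB : B ≠ [] := by
        rintro rfl
        obtain ⟨b, hb, hbU⟩ := hU
        rw [h1, List.append_nil] at hb
        exact h2 b hb hbU
      obtain ⟨B', b, rfl⟩ : ∃ B' b, B = B' ++ [b] := by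
        rcases List.eq_nil_or_concat B with h4 | ⟨B', b, h4⟩
        · exact absurd h4 hB
        · exact ⟨B', b, by rw [h4, List.concat_eq_append]⟩
      refine ⟨_, Or.inr rfl, b, (A ++ B').reverse, ?_, ?_⟩
      · rw [h1, ← List.append_assoc, List.reverse_append]
        rfl
      · exact not_not.1 (h3 b (by simp))

end abs

/-- the points of one row -/
def rowP (p : Par) (k : ℕ) (u : List ℕ) : List Pt := u.map (fun x => (x * p.L, (k + 1) * p.L))

theorem mainP_append (p : Par) (us : List (List ℕ)) (u : List ℕ) :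
    p.mainP (us ++ [u]) = p.mainP us ++ rowP p us.length u := by
  unfold Par.mainP rowP
  rw [List.zipIdx_append, List.flatMap_append]
  simp

theorem mem_zr {r : ℕ → List Pt} {n : ℕ} {q : Pt} (h : q ∈ zr r n) : ∃ i < n, q ∈ r i := by
  unfold zr at h
  rw [List.mem_flatMap] at h
  obtain ⟨i, hi, hq⟩ := h
  refine ⟨i, List.mem_range.1 hi, ?_⟩
  split_ifs at hq
  · exact hq
  · exact List.mem_reverse.1 hq

theorem mem_hrun {x0 n y : ℕ} {q : Pt} (h : q ∈ hrun x0 n y) : ∃ i < n, q = (x0 + i, y) := by
  unfold hrun at h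
  rw [List.mem_map] at h
  obtain ⟨i, hi, rfl⟩ := h
  exact ⟨i, List.mem_range.1 hi, rfl⟩

theorem mem_vrun {x y0 n : ℕ} {q : Pt} (h : q ∈ vrun x y0 n) : ∃ i < n, q = (x, y0 + i) := by
  unfold vrun at h
  rw [List.mem_map] at h
  obtain ⟨i, hi, rfl⟩ := h
  exact ⟨i, List.mem_range.1 hi, rfl⟩

/-- elementary inequalities for the parameters -/
theorem ok_ineq {p : Par} (h : p.Ok) : 4 ≤ p.L ∧ p.R * p.L + p.L ≤ p.Y ∧
    (p.m + 1) * p.L + p.L ≤ p.X ∧ p.X + p.D + 2 < p.XX ∧ p.Y + p.D + 2 < p.YY := by
  have hL : 4 ≤ p.L := by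
    have := h.hL
    omega
  have hH : p.H = p.R * p.L + p.L := by
    unfold Par.H
    ring
  have hW : p.W = (p.m + 1) * p.L + p.L := by
    unfold Par.W
    ring
  have hHp : 1 ≤ p.H := by
    rw [hH]
    omega
  have hWp : 1 ≤ p.W := by
    rw [hW]
    omega
  have h1 : p.H ≤ p.Y := by
    refine le_trans ?_ h.hY
    nlinarith
  have h2 : p.W ≤ p.X := by
    refine le_trans ?_ h.hX
    nlinarith
  refine ⟨hL, by omega, by omega, ?_, ?_⟩
  · refine lt_of_le_of_lt ?_ h.hXX
    nlinarith
  · refine lt_of_le_of_lt ?_ h.hYY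
    nlinarith

/-- the other points are not in the first rows -/
theorem rest_not {p : Par} (h : p.Ok) {k : ℕ} (hk : k ≤ p.R) {q : Pt} (hq : q ∈ p.rest) :
    ¬ InA p k q := by
  obtain ⟨hL, hY, hX, hXX, hYY⟩ := ok_ineq h
  have hkR : k * p.L ≤ p.R * p.L := Nat.mul_le_mul_right _ hk
  rintro ⟨h1, h2⟩
  unfold Par.rest at hq
  rw [List.mem_append, List.mem_cons, List.mem_append, List.mem_append, List.mem_cons] at hq
  rcases hq with hq | rfl | hq | hq | rfl | hq
  · rw [List.mem_flatMap] at hq
    obtain ⟨j, _, hq⟩ := hq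
    obtain ⟨i, _, hq⟩ := mem_zr hq
    obtain ⟨i', _, rfl⟩ := mem_hrun hq
    simp only at h2
    omega
  · simp only at h2
    omega
  · obtain ⟨i, _, hq⟩ := mem_zr hq
    obtain ⟨i', _, rfl⟩ := mem_hrun (List.mem_reverse.1 hq)
    simp only at h2
    have : p.YY ≤ (i + 1) * p.YY := Nat.le_mul_of_pos_left _ (Nat.succ_pos _)
    omega
  · rw [List.mem_flatMap] at hq
    obtain ⟨j, _, hq⟩ := hq
    obtain ⟨i, _, hq⟩ := mem_zr hq
    obtain ⟨i', _, rfl⟩ := mem_vrun (List.mem_reverse.1 hq)
    simp only at h1
    omega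
  · simp only at h1
    omega
  · obtain ⟨i, _, hq⟩ := mem_zr hq
    obtain ⟨i', _, rfl⟩ := mem_vrun hq
    simp only at h1
    have : p.XX ≤ (i + 1) * p.XX := Nat.le_mul_of_pos_left _ (Nat.succ_pos _)
    omega

theorem mem_rowP {p : Par} {k : ℕ} {u : List ℕ} {q : Pt} (h : q ∈ rowP p k u) :
    ∃ x ∈ u, q = (x * p.L, (k + 1) * p.L) := by
  unfold rowP at h
  rw [List.mem_map] at h
  obtain ⟨x, hx, rfl⟩ := h
  exact ⟨x, hx, rfl⟩

theorem rowL_mem {b : Bool} {ρ : Row} {x : ℕ} (h : x ∈ rowL b ρ) : x = ρ.1 ∨ x = ρ.2 := by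
  unfold rowL at h
  split_ifs at h
  · left; simpa using h
  · simpa using h
  · rw [List.mem_cons, List.mem_singleton] at h
    tauto

/-- the points of the walker in the first `k` rows and in the last rows -/
theorem mainP_split (p : Par) (vs1 : List (List ℕ)) (v : List ℕ) (vs2 : List (List ℕ)) :
    ∃ A C, p.mainP (vs1 ++ v :: vs2) = A ++ (rowP p vs1.length v ++ C) ∧
      (∀ q ∈ A, ∃ i < vs1.length, ∃ u ∈ vs1, q ∈ rowP p i u) ∧
      (∀ q ∈ C, ∃ i, vs1.length < i ∧ ∃ u ∈ vs2, q ∈ rowP p i u) := by
  refine ⟨p.mainP vs1, (vs2.zipIdx (vs1.length + 1)).flatMap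
    (fun q => q.1.map (fun x => (x * p.L, (q.2 + 1) * p.L))), ?_, ?_, ?_⟩
  · unfold Par.mainP rowP
    rw [List.zipIdx_append, List.flatMap_append, List.zipIdx_cons, List.flatMap_cons]
    simp
  · intro q hq
    unfold Par.mainP at hq
    rw [List.mem_flatMap] at hq
    obtain ⟨⟨u, i⟩, hui, hq⟩ := hq
    have h1 := List.mem_zipIdx hui
    refine ⟨i, by omega, u, ?_, hq⟩
    rw [h1.2.2]
    exact List.getElem_mem _
  · intro q hq
    rw [List.mem_flatMap] at hq
    obtain ⟨⟨u, i⟩, hui, hq⟩ := hq
    have h1 := List.mem_zipIdx hui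
    refine ⟨i, by omega, u, ?_, hq⟩
    rw [h1.2.2]
    exact List.getElem_mem _

theorem perm_row {α : Type} (g : ℕ → α) (ρ : Row) (C : List α)
    (h : C.Perm ((rowL true ρ).map g)) : ∃ b, C = (rowL b ρ).map g := by
  by_cases h1 : ρ.1 = ρ.2
  · refine ⟨true, ?_⟩
    unfold rowL at h ⊢
    rw [if_pos h1] at h ⊢
    exact List.perm_singleton.1 h
  · have h2 : (rowL true ρ).map g = [g ρ.1, g ρ.2] := by
      unfold rowL
      rw [if_neg h1]
      simp
    have h3 : (rowL false ρ).map g = [g ρ.2, g ρ.1] := by
      unfold rowL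
      rw [if_neg h1]
      simp
    rw [h2] at h
    have hlen := h.length_eq
    match C, h, hlen with
    | [c1, c2], h, _ =>
      have hc1 : c1 ∈ [g ρ.1, g ρ.2] := h.subset (by simp)
      rw [List.mem_cons, List.mem_singleton] at hc1
      rcases hc1 with rfl | rfl
      · have h4 := List.perm_singleton.1 ((List.perm_cons _).1 h)
        exact ⟨true, by rw [h2, List.cons.injEq]; exact ⟨rfl, h4⟩⟩
      · have h4 := List.perm_singleton.1 ((List.perm_cons _).1 (h.trans (List.Perm.swap _ _ _)))
        exact ⟨false, by rw [h3, List.cons.injEq]; exact ⟨rfl, h4⟩⟩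

theorem t_N4 : N4Stm := by
  classical
  intro p rows P hok hfit hperm hchg
  obtain ⟨hL, hY, hX, hXX, hYY⟩ := ok_ineq hok
  obtain ⟨hlen, hpos⟩ := hfit
  have hR := hok.hR
  -- the points of a row
  have hrow : ∀ ρ ∈ rows, ∀ b, ∀ x ∈ rowL b ρ, x ≤ p.m + 1 := by
    intro ρ hρ b x hx
    have h1 := hpos ρ hρ
    rcases rowL_mem hx with rfl | rfl
    · omega
    · exact h1.2
  have hrowIn : ∀ (k i : ℕ) (u : List ℕ), (∀ x ∈ u, x ≤ p.m + 1) → ∀ q ∈ rowP p i u,
      (InA p k q ↔ i < k) := by
    intro k i u hu q hq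
    obtain ⟨x, hx, rfl⟩ := mem_rowP hq
    unfold InA
    simp only
    have h1 : x * p.L ≤ (p.m + 1) * p.L := Nat.mul_le_mul_right _ (hu x hx)
    constructor
    · rintro ⟨_, h2⟩
      have := Nat.le_of_mul_le_mul_right h2 (by omega)
      omega
    · intro h2
      exact ⟨h1, Nat.mul_le_mul_right _ h2⟩
  -- the orientation
  have hex : ∃ a ∈ P, InA p 1 a := by
    obtain ⟨ρ, rs, hρ⟩ : ∃ ρ rs, rows = ρ :: rs := by
      cases rows with
      | nil => simp at hlen; omega
      | cons ρ rs => exact ⟨ρ, rs, rfl⟩
    obtain ⟨A, C, h1, _, _⟩ := mainP_split p [] (rowL true ρ) (rs.map (rowL true))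
    have h2 : ρ.1 ∈ rowL true ρ := by
      unfold rowL
      split_ifs <;> simp
    have h3 : ((ρ.1 * p.L, (0 + 1) * p.L) : Pt) ∈ rowP p 0 (rowL true ρ) := by
      unfold rowP
      exact List.mem_map.2 ⟨ρ.1, h2, rfl⟩
    refine ⟨_, hperm.mem_iff.2 ?_, (hrowIn 1 0 _ (hrow ρ (by rw [hρ]; simp) true) _ h3).2 one_pos⟩
    unfold Par.pts
    rw [List.mem_append]
    left
    rw [hρ, List.map_cons]
    have h4 : p.mainP (rowL true ρ :: rs.map (rowL true)) = _ := h1
    rw [h4]
    simp only [List.mem_append]
    right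
    left
    exact h3
  obtain ⟨P', hP', a0, l0, hP0, ha0⟩ := chg_end P (U := InA p 1) (hchg 1 le_rfl hR) hex
  have hperm' : P'.Perm (p.pts rows) := by
    rcases hP' with rfl | rfl
    · exact hperm
    · exact (List.reverse_perm P).trans hperm
  have hchg' : ∀ k, 1 ≤ k → k ≤ p.R → adjC (Chg (InA p k)) P' ≤ 1 := by
    intro k h1 h2
    rcases hP' with rfl | rfl
    · exact hchg k h1 h2
    · rw [adjC_reverse chg_comm]
      exact hchg k h1 h2
  -- the rows one by one
  have key : ∀ k, k ≤ p.R → ∃ us B, IsWalk (rows.take k) us ∧ P' = p.mainP us ++ B ∧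
      (∀ q ∈ p.mainP us, InA p k q) ∧ ∀ q ∈ B, ¬ InA p k q := by
    intro k
    induction k with
    | zero =>
      intro _
      refine ⟨[], P', ?_, ?_, ?_, ?_⟩
      · rw [List.take_zero]
        exact List.Forall₂.nil
      · simp [Par.mainP]
      · simp [Par.mainP]
      · intro q hq hin
        have h1 := hperm'.mem_iff.1 hq
        unfold Par.pts at h1
        rw [List.mem_append] at h1
        rcases h1 with h1 | h1
        · unfold Par.mainP at h1
          rw [List.mem_flatMap] at h1
          obtain ⟨⟨u, i⟩, _, hq⟩ := h1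
          rw [List.mem_map] at hq
          obtain ⟨x, _, rfl⟩ := hq
          have h2 : (i + 1) * p.L ≤ 0 * p.L := hin.2
          have h3 : p.L ≤ (i + 1) * p.L := Nat.le_mul_of_pos_left _ (Nat.succ_pos _)
          omega
        · exact rest_not hok (Nat.zero_le _) h1 hin
    | succ k ih =>
      intro hk
      obtain ⟨us, B, hus, hPB, hA, hB⟩ := ih (by omega)
      have hkr : k < rows.length := by omega
      have huslen : us.length = k := by
        have h1 := List.Forall₂.length_eq hus
        rw [List.length_take] at h1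
        omega
      -- the splitting for `k + 1`
      have ha0' : InA p (k + 1) a0 := by
        refine ⟨ha0.1, ha0.2.trans (Nat.mul_le_mul_right _ (by omega))⟩
      have h1 := hchg' (k + 1) (by omega) hk
      rw [hP0] at h1
      obtain ⟨A', B', hAB, hA', hB'⟩ := chg_split l0 a0 ha0' h1
      rw [← hP0] at hAB
      set W : Pt → Bool := fun q => decide (InA p (k + 1) q) with hW
      have f1 : P'.filter W = A' := by
        rw [hAB, List.filter_append]
        have e1 : A'.filter W = A' := List.filter_eq_self.2 fun q hq => by simpa [hW] using hA' q hq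
        have e2 : B'.filter W = [] := List.filter_eq_nil_iff.2 fun q hq => by
          simpa [hW] using hB' q hq
        rw [e1, e2, List.append_nil]
      have f2 : P'.filter W = p.mainP us ++ B.filter W := by
        rw [hPB, List.filter_append]
        congr 1
        refine List.filter_eq_self.2 fun q hq => ?_
        have h2 := hA q hq
        have h3 : InA p (k + 1) q := ⟨h2.1, h2.2.trans (Nat.mul_le_mul_right _ (by omega))⟩
        simpa [hW] using h3
      -- the next row
      set V : Pt → Bool := fun q => decide (InA p (k + 1) q ∧ ¬ InA p k q) with hV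
      have f3 : P'.filter V = B.filter W := by
        rw [hPB, List.filter_append]
        have e1 : (p.mainP us).filter V = [] := List.filter_eq_nil_iff.2 fun q hq => by
          have := hA q hq
          simp [hV, this]
        have e2 : B.filter V = B.filter W := by
          refine List.filter_congr fun q hq => ?_
          have := hB q hq
          simp [hV, hW, this]
        rw [e1, e2, List.nil_append]
      have f4 : (p.pts rows).filter V = rowP p k (rowL true rows[k]) := by
        have e0 : rows = rows.take k ++ rows[k] :: rows.drop (k + 1) := by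
          rw [← List.drop_eq_getElem_cons hkr, List.take_append_drop]
        have e1 : rows.map (rowL true) = (rows.take k).map (rowL true) ++
            rowL true rows[k] :: (rows.drop (k + 1)).map (rowL true) := by
          conv_lhs => rw [e0]
          rw [List.map_append, List.map_cons]
        obtain ⟨A2, C2, h2, h3, h4⟩ := mainP_split p ((rows.take k).map (rowL true))
          (rowL true rows[k]) ((rows.drop (k + 1)).map (rowL true))
        have e2 : ((rows.take k).map (rowL true)).length = k := by
          rw [List.length_map, List.length_take]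
          omega
        rw [e2] at h2 h3 h4
        unfold Par.pts
        rw [e1, h2, List.filter_append, List.filter_append, List.filter_append]
        have g1 : A2.filter V = [] := by
          refine List.filter_eq_nil_iff.2 fun q hq => ?_
          obtain ⟨i, hi, u, hu, hqu⟩ := h3 q hq
          obtain ⟨ρ, hρ, rfl⟩ := List.mem_map.1 hu
          have := (hrowIn k i _ (hrow ρ (List.mem_of_mem_take hρ) true) q hqu).2 hi
          simp [hV, this]
        have g2 : (rowP p k (rowL true rows[k])).filter V = rowP p k (rowL true rows[k]) := by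
          refine List.filter_eq_self.2 fun q hq => ?_
          have h5 := hrowIn k k _ (hrow rows[k] (List.getElem_mem _) true) q hq
          have h6 := hrowIn (k + 1) k _ (hrow rows[k] (List.getElem_mem _) true) q hq
          have h7 : ¬ InA p k q := fun h => lt_irrefl _ (h5.1 h)
          have h8 : InA p (k + 1) q := h6.2 (Nat.lt_succ_self _)
          simp [hV, h7, h8]
        have g3 : C2.filter V = [] := by
          refine List.filter_eq_nil_iff.2 fun q hq => ?_
          obtain ⟨i, hi, u, hu, hqu⟩ := h4 q hq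
          obtain ⟨ρ, hρ, rfl⟩ := List.mem_map.1 hu
          have h5 := hrowIn (k + 1) i _ (hrow ρ (List.mem_of_mem_drop hρ) true) q hqu
          have h6 : ¬ InA p (k + 1) q := fun h => by
            have := h5.1 h
            omega
          simp [hV, h6]
        have g4 : p.rest.filter V = [] := by
          refine List.filter_eq_nil_iff.2 fun q hq => ?_
          have h6 := rest_not hok hk hq
          simp [hV, h6]
        rw [g1, g2, g3, g4]
        simp
      have f5 : (B.filter W).Perm (rowP p k (rowL true rows[k])) := by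
        rw [← f3, ← f4]
        exact hperm'.filter _
      obtain ⟨b, hb⟩ := perm_row (fun x => ((x * p.L, (k + 1) * p.L) : Pt)) rows[k] _ f5
      have hA'' : p.mainP (us ++ [rowL b rows[k]]) = A' := by
        rw [mainP_append, huslen, ← f1, f2, hb]
        rfl
      refine ⟨us ++ [rowL b rows[k]], B', ?_, ?_, ?_, hB'⟩
      · have e1 : rows.take (k + 1) = rows.take k ++ [rows[k]] := by
          rw [List.take_succ_eq_append_getElem hkr]
        rw [e1]
        exact List.rel_append hus (List.Forall₂.cons ⟨b, rfl⟩ List.Forall₂.nil)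
      · rw [hA'']
        exact hAB
      · rw [hA'']
        exact hA'
  obtain ⟨us, B, hus, hPB, _, _⟩ := key p.R le_rfl
  rw [← hlen, List.take_length] at hus
  refine ⟨us, hus, B, ?_⟩
  rcases hP' with rfl | rfl
  · exact Or.inl hPB
  · exact Or.inr hPB

end Pool.Agent.Q66.PS
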