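import Pool.Agent.Q66.PS.N4

set_option autoImplicit false

/-! # The path-stabbing number: job Y5 -/

namespace Pool.Agent.Q66.PS

open Pool.Agent.Q229.PS

theorem mem_zg {a b : ℕ → Pt} {n : ℕ} {q : Pt} (h : q ∈ zg a b n) :
    ∃ i < n, q = a i ∨ q = b i := by
  unfold zg at h
  rw [List.mem_flatMap] at h
  obtain ⟨i, hi, hq⟩ := h
  refine ⟨i, List.mem_range.1 hi, ?_⟩
  split_ifs at hq
  · simpa using hq
  · rw [List.mem_cons, List.mem_singleton] at hq
    tauto

/-- a list which is negative, then `Z`, then positive -/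
theorem sc_mid (f : Pt → ℝ) (l Z l' : List Pt) (n : ℕ) (hl : l ≠ []) (hl' : l' ≠ [])
    (hneg : ∀ a ∈ l, f a < 0) (hpos : ∀ a ∈ l', 0 < f a)
    (h : ∀ x y, f x < 0 → 0 < f y → sc f (x :: (Z ++ [y])) ≤ n) :
    sc f (l ++ (Z ++ l')) ≤ n := by
  obtain ⟨l1, x, rfl⟩ : ∃ l1 x, l = l1 ++ [x] := by
    rcases List.eq_nil_or_concat l with h4 | ⟨B', b, h4⟩
    · exact absurd h4 hl
    · exact ⟨B', b, by rw [h4, List.concat_eq_append]⟩
  obtain ⟨y, l2, rfl⟩ : ∃ y l2, l' = y :: l2 := by
    cases l' with
    | nil => exact absurd rfl hl'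
    | cons y l2 => exact ⟨y, l2, rfl⟩
  have h1 : l1 ++ [x] ++ (Z ++ y :: l2) = l1 ++ x :: (Z ++ y :: l2) := by simp
  have h2 : sc f (l1 ++ x :: (Z ++ y :: l2)) = sc f (l1 ++ [x]) + sc f (x :: (Z ++ y :: l2)) :=
    adjC_append l1 x _
  have h3 : sc f (x :: Z ++ y :: l2) = sc f (x :: Z ++ [y]) + sc f (y :: l2) :=
    adjC_append (x :: Z) y _
  have h4 := sc_neg_list f (l1 ++ [x]) hneg
  have h5 := sc_pos f (y :: l2) hpos
  have h6 := h x y (hneg x (by simp)) (hpos y (by simp))
  rw [List.cons_append, List.cons_append] at h3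
  rw [h1, h2, h3, h4, h5]
  omega

/-- the points of the walker with positions and rows -/
def Lst (k : ℕ) (us : List (List ℕ)) : List (ℕ × ℕ) :=
  (us.zipIdx k).flatMap (fun q => q.1.map (fun x => (x, q.2)))

theorem Lst_fst (us : List (List ℕ)) (k : ℕ) : (Lst k us).map Prod.fst = us.flatten := by
  induction us generalizing k with
  | nil => rfl
  | cons u us ih =>
    unfold Lst at ih ⊢
    rw [List.zipIdx_cons, List.flatMap_cons, List.map_append, ih (k + 1), List.flatten_cons,
      List.map_map]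
    congr 1
    simp [Function.comp_def]

theorem mainP_eq (p : Par) (us : List (List ℕ)) :
    p.mainP us = (Lst 0 us).map (fun t => (t.1 * p.L, (t.2 + 1) * p.L)) := by
  unfold Par.mainP Lst
  rw [List.map_flatMap]
  congr 1
  funext q
  rw [List.map_map]
  rfl

theorem mem_Lst {us : List (List ℕ)} {t : ℕ × ℕ} (h : t ∈ Lst 0 us) :
    t.2 < us.length ∧ ∃ u ∈ us, t.1 ∈ u := by
  unfold Lst at h
  rw [List.mem_flatMap] at h
  obtain ⟨⟨u, i⟩, hui, hq⟩ := h
  rw [List.mem_map] at hq
  obtain ⟨x, hx, rfl⟩ := hq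
  have h1 := List.mem_zipIdx hui
  refine ⟨by simp only; omega, u, ?_, hx⟩
  rw [h1.2.2]
  exact List.getElem_mem _

/-- sign changes along the walker are steps over gap `j` -/
theorem sc_mainP (p : Par) (us : List (List ℕ)) (f : Pt → ℝ) (j : ℕ)
    (hneg : ∀ x i, x ≤ j → i < us.length → f (x * p.L, (i + 1) * p.L) < 0)
    (hpos : ∀ x i, j < x → i < us.length → 0 < f (x * p.L, (i + 1) * p.L)) :
    sc f (p.mainP us) = cross j us.flatten := by
  rw [mainP_eq]
  unfold sc cross
  rw [adjC_map, ← Lst_fst us 0, adjC_map]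
  apply adjC_congr
  intro a ha b hb
  have ha1 := (mem_Lst ha).1
  have hb1 := (mem_Lst hb).1
  unfold cr
  rcases le_or_gt a.1 j with h1 | h1 <;> rcases le_or_gt b.1 j with h2 | h2
  · have h3 := hneg _ _ h1 ha1
    have h4 := hneg _ _ h2 hb1
    have h5 := mul_pos_of_neg_of_neg h3 h4
    constructor
    · intro h
      exact absurd h5 (not_lt.2 h.le)
    · intro h
      omega
  · have h3 := hneg _ _ h1 ha1
    have h4 := hpos _ _ h2 hb1
    have h5 := mul_neg_of_neg_of_pos h3 h4
    exact ⟨fun _ => Or.inl ⟨h1, h2⟩, fun _ => h5⟩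
  · have h3 := hpos _ _ h1 ha1
    have h4 := hneg _ _ h2 hb1
    have h5 := mul_neg_of_pos_of_neg h3 h4
    exact ⟨fun _ => Or.inr ⟨h2, h1⟩, fun _ => h5⟩
  · have h3 := hpos _ _ h1 ha1
    have h4 := hpos _ _ h2 hb1
    have h5 := mul_pos h3 h4
    constructor
    · intro h
      exact absurd h5 (not_lt.2 h.le)
    · intro h
      omega

/-- the points of `cR2` -/
theorem mem_cR2 {p : Par} (h : p.Ok) {q : Pt} (hq : q ∈ p.cR2) : p.X + 1 ≤ q.1 ∧ q.2 ≤ p.H := by
  obtain ⟨hL, hY, hX, hXX, hYY⟩ := ok_ineq h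
  have hH : p.H = p.R * p.L + p.L := by
    unfold Par.H
    ring
  unfold Par.cR2 at hq
  rw [List.mem_append, List.mem_cons] at hq
  rcases hq with hq | rfl | hq
  · rw [List.mem_flatMap] at hq
    obtain ⟨k, hk, hq⟩ := hq
    rw [List.mem_range] at hk
    obtain ⟨i, _, hq⟩ := mem_zg hq
    have h1 : (p.R - k) * p.L ≤ p.R * p.L := Nat.mul_le_mul_right _ (by omega)
    rcases hq with rfl | rfl
    · simp only
      omega
    · simp only
      omega
  · simp only
    omega
  · obtain ⟨i, _, hq⟩ := mem_zg hq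
    have : p.XX ≤ (i + 1) * p.XX := Nat.le_mul_of_pos_left _ (Nat.succ_pos _)
    rcases hq with rfl | rfl
    · simp only
      omega
    · simp only
      omega

theorem t_Y5 : Y5Stm := by
  intro hY1 p us hwk f x0 hf j hj hx1 hx2
  obtain ⟨hok, hlen, hu, hlast, hcr⟩ := hwk
  obtain ⟨hL, hY, hX, hXX, hYY⟩ := ok_ineq hok
  obtain ⟨hf1, hf2, hf3, _⟩ := hf
  -- signs in terms of natural numbers
  have hneg : ∀ a : Pt, a.2 ≤ p.Y + p.D + 1 → a.1 ≤ j * p.L → f a < 0 := by
    intro a h1 h2
    apply (hf1 a h1).2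
    have h3 : (a.1 : ℝ) ≤ (j * p.L : ℝ) := by exact_mod_cast h2
    linarith
  have hpos : ∀ a : Pt, a.2 ≤ p.Y + p.D + 1 → j * p.L + p.L ≤ a.1 → 0 < f a := by
    intro a h1 h2
    apply (hf1 a h1).1
    have h3 : (j * p.L : ℝ) + p.L ≤ (a.1 : ℝ) := by exact_mod_cast h2
    linarith
  have hcapj := hok.hcap j
  have hD := hok.hD
  -- the walker
  have hRL : ∀ i < p.R, (i + 1) * p.L ≤ p.R * p.L := fun i hi => Nat.mul_le_mul_right _ hi
  have hmain : sc f (p.mainP us) ≤ p.cap j := by
    rw [sc_mainP p us f j]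
    · rcases Nat.lt_or_ge p.m j with h1 | h1
      · have h2 : j = p.m + 1 := by omega
        have h3 : cross j us.flatten = 0 := by
          unfold cross
          apply adjC_eq_zero
          intro a ha b hb h4
          rw [List.mem_flatten] at ha hb
          obtain ⟨u, hu1, ha⟩ := ha
          obtain ⟨v, hv1, hb⟩ := hb
          have h5 := (hu u hu1).2.2 a ha
          have h6 := (hu v hv1).2.2 b hb
          unfold cr at h4
          omega
        rw [h3]
        exact Nat.zero_le _
      · exact hcr j h1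
    · intro x i hx hi
      apply hneg
      · have := hRL i (by omega)
        simp only
        omega
      · exact Nat.mul_le_mul_right _ hx
    · intro x i hx hi
      apply hpos
      · have := hRL i (by omega)
        simp only
        omega
      · have : (j + 1) * p.L ≤ x * p.L := Nat.mul_le_mul_right _ hx
        simp only
        have h2 : (j + 1) * p.L = j * p.L + p.L := by ring
        omega
  -- the last point of the walker
  obtain ⟨M0, hM0⟩ : ∃ M0, p.mainP us = M0 ++ [(0, p.R * p.L)] := by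
    obtain ⟨us', rfl⟩ : ∃ us', us = us' ++ [[0]] := by
      rcases List.eq_nil_or_concat us with h4 | ⟨B', b, h4⟩
      · rw [h4] at hlast
        simp at hlast
      · rw [List.concat_eq_append] at h4
        rw [h4, List.getLast?_append] at hlast
        simp only [List.getLast?_singleton, Option.some_or, Option.some.injEq] at hlast
        exact ⟨B', by rw [h4, hlast]⟩
    refine ⟨p.mainP us', ?_⟩
    rw [mainP_append]
    congr 1
    rw [List.length_append, List.length_singleton] at hlen
    unfold rowP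
    simp [hlen]
  have hz : f (0, p.R * p.L) < 0 := by
    apply hneg
    · simp only
      omega
    · exact Nat.zero_le _
  have hWj : j * p.L + p.L ≤ p.W := by
    have h1 : (j + 1) * p.L ≤ (p.m + 2) * p.L := Nat.mul_le_mul_right _ (by omega)
    have h2 : (j + 1) * p.L = j * p.L + p.L := by ring
    unfold Par.W
    omega
  have hw : 0 < f (p.W, p.Y + p.D + 1) := hpos _ le_rfl hWj
  -- the short rows
  have hS : sc f ((0, p.R * p.L) ::
      ((List.range (p.m + 2)).flatMap p.cS ++ [(p.W, p.Y + p.D + 1)])) ≤ p.s j := by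
    obtain ⟨k, hk⟩ : ∃ k, p.m + 2 = j + 1 + k := ⟨p.m + 1 - j, by omega⟩
    have hr : (List.range (p.m + 2)).flatMap p.cS = (List.range j).flatMap p.cS ++
        (p.cS j ++ ((List.range k).map (fun x => j + 1 + x)).flatMap p.cS) := by
      rw [hk, List.range_add, List.range_succ, List.flatMap_append, List.flatMap_append]
      simp
    have hhei : ∀ j' i, i < p.s j' → p.Y + 1 + i ≤ p.Y + p.D + 1 := by
      intro j' i hi
      unfold Par.s at hi
      omega
    have h1 := sc_mid f ((0, p.R * p.L) :: (List.range j).flatMap p.cS) (p.cS j)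
      (((List.range k).map (fun x => j + 1 + x)).flatMap p.cS ++ [(p.W, p.Y + p.D + 1)]) (p.s j)
      (by simp) (by simp) ?_ ?_ ?_
    · rw [hr]
      simpa only [List.cons_append, List.append_assoc] using h1
    · intro a ha
      rcases List.mem_cons.1 ha with rfl | ha
      · exact hz
      · rw [List.mem_flatMap] at ha
        obtain ⟨j', hj', ha⟩ := ha
        rw [List.mem_range] at hj'
        obtain ⟨i, hi, ha⟩ := mem_zg ha
        have h2 : (j' + 1) * p.L ≤ j * p.L := Nat.mul_le_mul_right _ hj'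
        have h3 : (j' + 1) * p.L = j' * p.L + p.L := by ring
        rcases ha with rfl | rfl
        · apply hneg
          · exact hhei j' i hi
          · simp only
            omega
        · apply hneg
          · exact hhei j' i hi
          · simp only
            omega
    · intro a ha
      rw [List.mem_append, List.mem_singleton] at ha
      rcases ha with ha | rfl
      · rw [List.mem_flatMap] at ha
        obtain ⟨j', hj', ha⟩ := ha
        rw [List.mem_map] at hj'
        obtain ⟨t, _, rfl⟩ := hj'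
        obtain ⟨i, hi, ha⟩ := mem_zg ha
        have h2 : (j + 1) * p.L ≤ (j + 1 + t) * p.L := Nat.mul_le_mul_right _ (by omega)
        have h3 : (j + 1) * p.L = j * p.L + p.L := by ring
        rcases ha with rfl | rfl
        · apply hpos
          · exact hhei _ i hi
          · simp only
            omega
        · apply hpos
          · exact hhei _ i hi
          · simp only
            omega
      · exact hw
    · intro x y hx hy
      unfold Par.cS
      refine (hY1 f _ _ (p.s j)).1 x y ?_ hx hy ?_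
      · unfold Par.s
        omega
      · by_cases h4 : (j * p.L : ℝ) + 1 ≤ x0 - 1 / 4
        · left
          intro i hi
          apply (hf1 _ (hhei j i hi)).2
          push_cast
          linarith
        · right
          intro i hi
          apply (hf1 _ (hhei j i hi)).1
          have h5 : (j * p.L : ℝ) + 3 ≤ ((j * p.L + p.L - 1 : ℕ) : ℝ) := by
            have : j * p.L + 3 ≤ j * p.L + p.L - 1 := by omega
            exact_mod_cast this
          simp only
          linarith
  -- the full rows and the rest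
  obtain ⟨y, r2, hr2⟩ : ∃ y r2, p.cR2 = y :: r2 := by
    cases h : p.cR2 with
    | nil =>
      unfold Par.cR2 at h
      simp at h
    | cons y r2 => exact ⟨y, r2, rfl⟩
  have hR2pos : ∀ q ∈ p.cR2, 0 < f q := fun q hq => hf2 q (mem_cR2 hok hq).1 (mem_cR2 hok hq).2
  have hV : sc f ((p.W, p.Y + p.D + 1) :: (p.cV ++ [y])) ≤ p.T := by
    unfold Par.cV
    refine (hY1 f _ _ p.T).2.1 _ _ hok.hT hw ?_ ?_
    · apply hR2pos
      rw [hr2]
      simp
    · apply hf3
      · exact hneg _ (Nat.zero_le _) (Nat.zero_le _)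
      · exact hpos _ (Nat.zero_le _) hWj
  have hR2 : sc f (y :: r2) = 0 := by
    apply sc_pos
    rw [← hr2]
    exact hR2pos
  -- the sum
  have e1 : p.mainP us ++ p.cRest = M0 ++ (0, p.R * p.L) ::
      ((List.range (p.m + 2)).flatMap p.cS ++ (p.W, p.Y + p.D + 1) :: (p.cV ++ y :: r2)) := by
    unfold Par.cRest Par.cR1
    rw [hM0, hr2]
    simp
  have e2 : sc f (M0 ++ (0, p.R * p.L) ::
      ((List.range (p.m + 2)).flatMap p.cS ++ (p.W, p.Y + p.D + 1) :: (p.cV ++ y :: r2))) =
      sc f (M0 ++ [(0, p.R * p.L)]) + sc f ((0, p.R * p.L) ::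
      ((List.range (p.m + 2)).flatMap p.cS ++ (p.W, p.Y + p.D + 1) :: (p.cV ++ y :: r2))) :=
    adjC_append _ _ _
  have e3 : sc f ((0, p.R * p.L) :: (List.range (p.m + 2)).flatMap p.cS ++
      (p.W, p.Y + p.D + 1) :: (p.cV ++ y :: r2)) =
      sc f ((0, p.R * p.L) :: (List.range (p.m + 2)).flatMap p.cS ++ [(p.W, p.Y + p.D + 1)]) +
      sc f ((p.W, p.Y + p.D + 1) :: (p.cV ++ y :: r2)) :=
    adjC_append _ _ _
  have e4 : sc f ((p.W, p.Y + p.D + 1) :: p.cV ++ y :: r2) =
      sc f ((p.W, p.Y + p.D + 1) :: p.cV ++ [y]) + sc f (y :: r2) :=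
    adjC_append _ _ _
  simp only [List.cons_append] at e3 e4
  rw [e1, e2, e3, e4, hR2, ← hM0]
  unfold Par.s at hS
  unfold Par.K
  omega

end Pool.Agent.Q66.PS
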